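import Mathlib
import Pool.Agent.Y140.IG.PI
import Pool.Agent.TH444.TW.Fin

/-!
# The tower with one nontrivial step `A ^ n → 1`
-/

set_option autoImplicit false

namespace Pool.Agent.X325.IG

open Pool.Agent.TH444.TW (RegularOver IsInnerPower Cls)
open Pool.Agent.TH15.IGP (Lim)
open Pool.Agent.Y140.IG (Occurs)

/-- The exponents `0, n, n, n, ...`. -/
def dd (n : ℕ) : ℕ → ℕ
  | 0 => 0
  | _ + 1 => n

/-- The groups `1, A ^ n, A ^ n, ...`. -/
abbrev PT (A : Type) (n : ℕ) (i : ℕ) : Type := Fin (dd n i) → A

section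

variable (A : Type) [Group A] (n : ℕ)

/-- The maps of the tower. -/
def pp : ∀ i, PT A n (i + 1) →* PT A n i
  | 0 => 1
  | _ + 1 => MonoidHom.id (Fin n → A)

theorem pp_zero (x : PT A n 1) : pp A n 0 x = 1 := rfl

theorem pp_succ (i : ℕ) (x : PT A n (i + 2)) : pp A n (i + 1) x = (x : Fin n → A) := rfl

theorem inner_zero : IsInnerPower A (pp A n 0) := by
  refine ⟨n, 1, MonoidHom.id (Fin n → A), 1, Function.injective_id, ?_, fun w => ?_,
    fun w x => ?_⟩
  · ext x
    constructor
    · intro _
      rfl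
    · intro _
      exact ⟨x, rfl⟩
  · funext i
    exact i.elim0
  · have h1 : ((1 : PT A n 0 →* PT A n 1) w) = (1 : Fin n → A) := rfl
    rw [h1]
    have h2 : ((1 : PT A n 0 →* Pool.Agent.H391R2.Wr A n) w) = 1 := rfl
    rw [h2]
    funext i
    change (1 : A) * x i = (1 : A) * x i * (1 : A)⁻¹ * 1
    simp

/-- The first group is trivial. -/
noncomputable def e0 (K : Type) [Field K] : PT A n 0 ≃* (K ≃ₐ[K] K) where
  toFun := fun _ => 1
  invFun := fun _ => 1
  left_inv := fun x => by
    funext i
    exact i.elim0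
  right_inv := fun σ => Pool.Agent.Y140.IG.aut_self _ _
  map_mul' := fun _ _ => Pool.Agent.Y140.IG.aut_self _ _

/-- The limit. -/
theorem lim_equiv : Nonempty (Lim (pp A n) ≃* (Fin n → A)) := by
  let ev : Lim (pp A n) →* (Fin n → A) :=
    { toFun := fun x => x.1 1
      map_one' := rfl
      map_mul' := fun x y => rfl }
  have key : ∀ (x : Lim (pp A n)) (i : ℕ), (x.1 (i + 1) : Fin n → A) = ev x := by
    intro x i
    induction i with
    | zero => rfl
    | succ i ih =>
      have h1 : pp A n (i + 1) (x.1 (i + 2)) = x.1 (i + 1) := x.2 (i + 1)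
      rw [← ih, ← h1]
      rfl
  refine ⟨MulEquiv.ofBijective ev ⟨fun x y hxy => ?_, fun a => ?_⟩⟩
  · apply Subtype.ext
    funext i
    cases i with
    | zero =>
      funext j
      exact j.elim0
    | succ i => exact (key x i).trans (hxy.trans (key y i).symm)
  · let z : ∀ i, PT A n i := fun i => match i with
      | 0 => fun j => j.elim0
      | _ + 1 => a
    have hz : z ∈ Lim (pp A n) := by
      intro i
      cases i with
      | zero =>
        funext j
        exact j.elim0
      | succ i => rfl
    exact ⟨⟨z, hz⟩, rfl⟩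

end

theorem regular_up {κ K A : Type} [Field κ] [Field K] [Algebra κ K] [Group A] [Finite A]
    (h : RegularOver κ A) : RegularOver K A :=
  Pool.Agent.Y140.IG.regular_congr (MulEquiv.funUnique (Fin 1) A)
    (Pool.Agent.Y140.IG.regular_power h 1)

theorem cls_id (K : Type) [Field K] {W : Type} [Group W] : Cls K (MonoidHom.id W) := by
  refine Cls.abelian (MonoidHom.id W) (MonoidHom.id W) (fun _ => rfl) ?_ ?_
  · have h1 : (MonoidHom.id W).ker = ⊥ := by
      ext x
      rw [MonoidHom.mem_ker, Subgroup.mem_bot]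
      rfl
    rw [h1]
    infer_instance
  · intro x y hx hy
    change x = 1 at hx
    change y = 1 at hy
    rw [hx, hy]

end Pool.Agent.X325.IG
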